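import Pool.Agent.H11.NX.Targets
import Pool.Agent.H11.NS.Targets

/-!
# Module CEN of the board nx_modules (MP_9b2842_al)
-/

set_option autoImplicit false

namespace Pool.Agent.H21.NX

open Pool.Agent.H11.NX
open scoped commutatorElement

/-- membership of the commutator in the kernel of a homomorphism -/
theorem comm_of_mem {L M : Type} [Group L] [Group M] (π : L →* M) {x y : L}
    (h : ⁅x, y⁆ ∈ π.ker) : π x * π y = π y * π x := by
  rw [MonoidHom.mem_ker, commutatorElement_def] at h
  simp only [map_mul, map_inv] at h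
  have h2 : π x * π y * (π x)⁻¹ * (π y)⁻¹ * (π y * π x) = 1 * (π y * π x) := by rw [h]
  have h3 : π x * π y * (π x)⁻¹ * (π y)⁻¹ * (π y * π x) = π x * π y := by group
  rw [h3, one_mul] at h2
  exact h2

/-- the heart: in a group `M`, if conjugation by `x`, `y` multiplies `a` by elements commuting
with `x`, `y` and each other, the commutator commutes with `a` -/
theorem heart {M : Type} [Group M] (x y a u v : M) (hx : x * a = u * a * x)
    (hy : y * a = v * a * y) (h1 : x * v = v * x) (h2 : y * u = u * y) (h3 : u * v = v * u) :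
    (x⁻¹ * y⁻¹ * x * y) * a = a * (x⁻¹ * y⁻¹ * x * y) := by
  have e1 : x * y * a = v * u * a * (x * y) := by
    calc x * y * a = x * (y * a) := by group
      _ = x * (v * a * y) := by rw [hy]
      _ = (x * v) * a * y := by group
      _ = v * (x * a) * y := by rw [h1]; group
      _ = v * (u * a * x) * y := by rw [hx]
      _ = v * u * a * (x * y) := by group
  have e2 : y * x * a = v * u * a * (y * x) := by
    calc y * x * a = y * (x * a) := by group
      _ = y * (u * a * x) := by rw [hx]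
      _ = (y * u) * a * x := by group
      _ = u * (y * a) * x := by rw [h2]; group
      _ = u * (v * a * y) * x := by rw [hy]
      _ = (u * v) * a * (y * x) := by group
      _ = v * u * a * (y * x) := by rw [h3]
  have e3 : y * x * a * (y * x)⁻¹ = x * y * a * (x * y)⁻¹ := by
    rw [e1, e2]; group
  have e4 : (y * x)⁻¹ * (y * x * a * (y * x)⁻¹) * (x * y) =
      (y * x)⁻¹ * (x * y * a * (x * y)⁻¹) * (x * y) := by rw [e3]
  have e5 : (y * x)⁻¹ * (y * x * a * (y * x)⁻¹) * (x * y) = a * (x⁻¹ * y⁻¹ * x * y) := by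
    group
  have e6 : (y * x)⁻¹ * (x * y * a * (x * y)⁻¹) * (x * y) = (x⁻¹ * y⁻¹ * x * y) * a := by
    group
  rw [e5, e6] at e4
  exact e4.symm

theorem pf_cen : Pool.Agent.H11.NS.T_FP → T_CEN := by
  intro hFP L Q _ _ _ φ P A B p r hp hr hrp hφ hP hPp hPk hAB hcAB hBk hcA g hg E hE hEg e he
  set π : L →* L ⧸ P := QuotientGroup.mk' P with hπ
  have hker : π.ker = P := QuotientGroup.ker_mk' P
  have hPi : ∀ x y : L, π x = π y → φ x = φ y := by
    intro x y h
    have h1 : x⁻¹ * y ∈ P := QuotientGroup.eq.1 h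
    have h2 : φ (x⁻¹ * y) = 1 := hPk h1
    rw [map_mul, map_inv] at h2
    exact (inv_mul_eq_one.1 h2)
  have hcomm : ∀ a ∈ A, ∀ b ∈ B, π a * π b = π b * π a := by
    intro a ha b hb
    apply comm_of_mem
    rw [hker]
    exact hcAB (Subgroup.commutator_mem_commutator ha hb)
  have hcent : ∀ a ∈ A, ∀ z ∈ A ⊓ φ.ker, π a * π z = π z * π a := by
    intro a ha b hb
    apply comm_of_mem
    rw [hker]
    exact hcA (Subgroup.commutator_mem_commutator ha hb)
  -- every element is a product modulo `P`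
  have hdec : ∀ x : L, ∃ a ∈ A, ∃ b ∈ B, π x = π a * π b := by
    intro x
    have hx : x ∈ Subgroup.closure ((A : Set L) ∪ (B : Set L)) := by
      rw [← Subgroup.sup_eq_closure, hAB]
      exact Subgroup.mem_top x
    induction hx using Subgroup.closure_induction with
    | mem y hy =>
      rcases hy with hy | hy
      · exact ⟨y, hy, 1, one_mem _, by rw [map_one, mul_one]⟩
      · exact ⟨1, one_mem _, y, hy, by rw [map_one, one_mul]⟩
    | one => exact ⟨1, one_mem _, 1, one_mem _, by rw [map_one, one_mul]⟩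
    | mul y z _ _ hy hz =>
      obtain ⟨a, ha, b, hb, hy⟩ := hy
      obtain ⟨a', ha', b', hb', hz⟩ := hz
      refine ⟨a * a', mul_mem ha ha', b * b', mul_mem hb hb', ?_⟩
      rw [map_mul, hy, hz, map_mul, map_mul]
      have := hcomm a' ha' b hb
      calc π a * π b * (π a' * π b') = π a * (π b * π a') * π b' := by group
        _ = π a * (π a' * π b) * π b' := by rw [this]
        _ = π a * π a' * (π b * π b') := by group
    | inv y _ hy =>
      obtain ⟨a, ha, b, hb, hy⟩ := hy
      refine ⟨a⁻¹, inv_mem ha, b⁻¹, inv_mem hb, ?_⟩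
      rw [map_inv, hy, map_inv, map_inv, hcomm a ha b hb, mul_inv_rev]
  obtain ⟨a, ha, b, hb, hgab⟩ := hdec g
  have hφb : ∀ b ∈ B, φ b = 1 := fun b hb => hBk hb
  have hφx : ∀ x a b : L, a ∈ A → b ∈ B → π x = π a * π b → φ x = φ a := by
    intro x a b _ hb h
    have h1 : φ x = φ (a * b) := hPi _ _ (by rw [h, map_mul])
    rw [h1, map_mul, hφb b hb, mul_one]
  have hφg : φ g = φ a := hφx g a b ha hb hgab
  -- the subgroup `A0`
  set A0 : Subgroup L := A ⊓ E.comap φ with hA0
  have hA0map : A0.map φ = E := by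
    apply le_antisymm
    · rintro _ ⟨x, hx, rfl⟩
      exact hx.2
    · intro e he
      obtain ⟨x, hx⟩ := hφ e
      obtain ⟨a1, ha1, b1, hb1, h1⟩ := hdec x
      have h2 := hφx x a1 b1 ha1 hb1 h1
      refine ⟨a1, ⟨ha1, ?_⟩, ?_⟩
      · show φ a1 ∈ E
        rw [← h2, hx]
        exact he
      · rw [← h2, hx]
  have hz : ∀ x ∈ A0, ∃ z ∈ A ⊓ φ.ker, π x * π a = π z * π a * π x := by
    intro x hx
    refine ⟨x * a * x⁻¹ * a⁻¹, ⟨?_, ?_⟩, ?_⟩
    · show x * a * x⁻¹ * a⁻¹ ∈ A
      exact mul_mem (mul_mem (mul_mem hx.1 ha) (inv_mem hx.1)) (inv_mem ha)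
    · show φ _ = 1
      have h1 : φ x * φ g = φ g * φ x := hEg _ hx.2
      rw [hφg] at h1
      rw [map_mul, map_mul, map_mul, map_inv, map_inv, h1]
      group
    · rw [← map_mul, ← map_mul, ← map_mul]
      congr 1
      group
  -- commutators of elements of `A0` commute with `a` modulo `P`
  set C : Subgroup L := (Subgroup.centralizer ({π a} : Set (L ⧸ P))).comap π with hC
  have hmemC : ∀ x : L, x ∈ C ↔ π x * π a = π a * π x := by
    intro x
    rw [hC, Subgroup.mem_comap, Subgroup.mem_centralizer_singleton_iff]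
    try exact ⟨fun h => h, fun h => h⟩
  have hD : ⁅A0, A0⁆ ≤ C := by
    rw [Subgroup.commutator_le]
    intro x hx y hy
    rw [hmemC]
    obtain ⟨u, hu, hxu⟩ := hz x⁻¹ (inv_mem hx)
    obtain ⟨v, hv, hyv⟩ := hz y⁻¹ (inv_mem hy)
    have h := heart (π x⁻¹) (π y⁻¹) (π a) (π u) (π v) hxu hyv
      (hcent _ (inv_mem hx.1) v hv) (hcent _ (inv_mem hy.1) u hu) (hcent u hu.1 v hv)
    have h5 : (π x⁻¹)⁻¹ * (π y⁻¹)⁻¹ * π x⁻¹ * π y⁻¹ = π ⁅x, y⁆ := by
      rw [commutatorElement_def, map_mul, map_mul, map_mul, map_inv, map_inv, inv_inv, inv_inv]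
    rw [h5] at h
    exact h
  have hDA : ⁅A0, A0⁆ ≤ A := by
    rw [Subgroup.commutator_le]
    intro x hx y hy
    rw [commutatorElement_def]
    exact mul_mem (mul_mem (mul_mem hx.1 hy.1) (inv_mem hx.1)) (inv_mem hy.1)
  have hEx : e ∈ (⁅A0, A0⁆ : Subgroup L).map φ := by
    rw [Subgroup.map_commutator, hA0map, hE]
    exact he
  obtain ⟨x, hxD, hxe⟩ := hEx
  have hcg : π x * π g = π g * π x := by
    have h1 := (hmemC x).1 (hD hxD)
    have h2 := hcomm x (hDA hxD) b hb
    rw [hgab]
    calc π x * (π a * π b) = (π x * π a) * π b := by group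
      _ = (π a * π x) * π b := by rw [h1]
      _ = π a * (π x * π b) := by group
      _ = π a * (π b * π x) := by rw [h2]
      _ = π a * π b * π x := by group
  have hP1 : g * x * g⁻¹ * x⁻¹ ∈ P := by
    rw [← hker, MonoidHom.mem_ker, map_mul, map_mul, map_mul, map_inv, map_inv, ← hcg]
    group
  have hcard : ¬ r ∣ Nat.card P := by
    intro h
    have _ : Fact p.Prime := ⟨hp⟩
    obtain ⟨n, hn⟩ := IsPGroup.iff_card.1 hPp
    rw [hn] at h
    have h2 := hr.dvd_of_dvd_pow h
    exact hrp ((Nat.prime_dvd_prime_iff_eq hr hp).1 h2)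
  obtain ⟨k, hk, hkg⟩ := hFP L P hP r hr hcard g ⟨1, by rw [pow_one]; exact hg⟩ x hP1
  refine ⟨x * k, hkg.symm, ?_⟩
  rw [map_mul, hxe]
  have : φ k = 1 := hPk hk
  rw [this, mul_one]

end Pool.Agent.H21.NX
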