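import Pool.Agent.H11.NX.Targets
import Pool.Agent.H11.NS.Targets

/-!
# Module PTY of the board nx_modules (MP_9b2842_al)
-/

set_option autoImplicit false

open Equiv (Perm)

namespace Pool.Agent.H21.NX

open Pool.Agent.H11.NX

/-- the general argument: a subgroup `Γ` of `G` commuting with `g` and mapping onto the
alternating group of degree `m` prevents a soluble subgroup of small index -/
theorem no_soluble_of_section {G Γ : Type} [Group G] [Group Γ] (hAI : Pool.Agent.H11.NS.T_AI)
    (g : G) (H : Subgroup (Subgroup.centralizer ({g} : Set G))) (hH : H.index ≠ 0)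
    (hsol : Group.IsSolvable H) (m : ℕ) (hm : m = 2 * H.normalCore.index + 5)
    (ι : Γ →* G) (hι : Function.Injective ι) (hg : ∀ x, ι x * g = g * ι x)
    (θ : Γ →* Perm (Fin m)) (hθ : ∀ ρ : Perm (Fin m), ρ.IsThreeCycle → ρ ∈ θ.range) :
    False := by
  have hfi : H.FiniteIndex := ⟨hH⟩
  set S := H.normalCore with hS
  have hSi : S.index ≠ 0 := (Subgroup.finiteIndex_normalCore H).index_ne_zero
  have hSn : S.Normal := Subgroup.normalCore_normal H
  have hSsol : Group.IsSolvable S :=
    Group.isSolvable_of_isSolvable_injective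
      (Subgroup.inclusion_injective (Subgroup.normalCore_le H))
  have hmem : ∀ x, ι x ∈ Subgroup.centralizer ({g} : Set G) := by
    intro x
    rw [Subgroup.mem_centralizer_singleton_iff]
    exact hg x
  set κ : Γ →* Subgroup.centralizer ({g} : Set G) := ι.codRestrict _ hmem with hκ
  have hκi : Function.Injective κ := by
    intro x y hxy
    apply hι
    exact congrArg Subtype.val hxy
  have h1 : (S.comap κ).Normal := inferInstance
  have h2 : Group.IsSolvable (S.comap κ) := by
    have h3 : Function.Injective (κ.subgroupComap S) := by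
      intro x y hxy
      apply Subtype.ext
      apply hκi
      exact congrArg Subtype.val hxy
    exact Group.isSolvable_of_isSolvable_injective h3
  have h3 : (S.comap κ).index ∣ S.index := by
    rw [Subgroup.index_comap]
    exact Subgroup.relIndex_dvd_index_of_normal _ _
  have h4 : (S.comap κ).index ≠ 0 := fun h => hSi (by rw [h] at h3; exact Nat.eq_zero_of_zero_dvd h3)
  have h5 := hAI Γ (Fin m) θ (by rw [Fintype.card_fin]; omega) hθ (S.comap κ) h1 h2 h4
  rw [Fintype.card_fin] at h5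
  have h6 : (S.comap κ).index ≤ S.index := Nat.le_of_dvd (Nat.pos_of_ne_zero hSi) h3
  have h7 : m ≤ m.factorial := Nat.self_le_factorial m
  omega

theorem pf_pty : T_LIN → T_CEN → Pool.Agent.H11.NS.T_AI → T_PTY := by
  intro hLIN hCEN hAI G _ p hp hcov g r hr hrp hg hgr H hH hsol
  obtain ⟨m, hm⟩ : ∃ m : ℕ, m = 2 * H.normalCore.index + 5 := ⟨_, rfl⟩
  obtain ⟨L, P, A, B, n, K, _, φ, hfin, hchar, hsurj, hkn, hF, hPn, hPp, hPk, hAB, hcAB, hBk,
    hcA⟩ := hcov {g} (r * r * m)
  obtain ⟨hgL, _⟩ := hF g (Finset.mem_singleton_self g)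
  set g' : L := ⟨g, hgL⟩ with hg'
  have hg'r : g' ^ r = 1 := Subtype.ext hgr
  obtain ⟨gh, hgh⟩ := QuotientGroup.mk'_surjective
    (Subgroup.center (Matrix.SpecialLinearGroup (Fin n) K)) (φ g')
  have hcent : gh ^ r ∈ Subgroup.center (Matrix.SpecialLinearGroup (Fin n) K) := by
    rw [← QuotientGroup.ker_mk' (Subgroup.center (Matrix.SpecialLinearGroup (Fin n) K)),
      MonoidHom.mem_ker, map_pow, hgh]
    show φ g' ^ r = 1
    rw [← map_pow, hg'r, map_one]
  have hr0 : (r : K) ≠ 0 := by
    intro h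
    rw [CharP.cast_eq_zero_iff K p r] at h
    exact hrp ((Nat.prime_dvd_prime_iff_eq hp hr).1 h).symm
  obtain ⟨θ, hθc, hθi⟩ := hLIN K n r m gh hr hr0 hcent (by omega) hkn
  set μ : alternatingGroup (Fin m) →* Matrix.ProjectiveSpecialLinearGroup (Fin n) K :=
    (QuotientGroup.mk' (Subgroup.center (Matrix.SpecialLinearGroup (Fin n) K))).comp θ with hμ
  have hμi : Function.Injective μ := by
    rw [injective_iff_map_eq_one]
    intro σ hσ
    apply hθi σ
    rw [← QuotientGroup.ker_mk' (Subgroup.center (Matrix.SpecialLinearGroup (Fin n) K)),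
      MonoidHom.mem_ker]
    exact hσ
  have hE : ⁅μ.range, μ.range⁆ = μ.range := by
    rw [MonoidHom.range_eq_map, ← Subgroup.map_commutator]
    congr 1
    have := commutator_alternatingGroup_eq_top (α := Fin m)
      (by rw [Nat.card_eq_fintype_card, Fintype.card_fin]; omega)
    rw [commutator_def] at this
    exact this
  have hEc : ∀ e ∈ μ.range, e * φ g' = φ g' * e := by
    rintro _ ⟨σ, rfl⟩
    rw [← hgh]
    show (QuotientGroup.mk' _) (θ σ) * (QuotientGroup.mk' _) gh =
      (QuotientGroup.mk' _) gh * (QuotientGroup.mk' _) (θ σ)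
    rw [← map_mul, ← map_mul, hθc σ]
  have hlift := hCEN L (Matrix.ProjectiveSpecialLinearGroup (Fin n) K) φ P A B p r hp hr hrp
    hsurj hPn hPp hPk hAB hcAB hBk hcA g' hg'r μ.range hE hEc
  set Γ : Subgroup L := Subgroup.centralizer ({g'} : Set L) ⊓ μ.range.comap φ with hΓ
  have hΓm : ∀ x : L, x * g' = g' * x → φ x ∈ μ.range → x ∈ Γ := by
    intro x hx hx2
    refine ⟨?_, hx2⟩
    show x ∈ Subgroup.centralizer ({g'} : Set L)
    rw [Subgroup.mem_centralizer_singleton_iff]
    exact hx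
  have hΓc : ∀ x : Γ, (x : L) * g' = g' * x := by
    intro x
    have h1 : (x : L) ∈ Subgroup.centralizer ({g'} : Set L) := x.2.1
    rw [Subgroup.mem_centralizer_singleton_iff] at h1
    exact h1
  set e := MonoidHom.ofInjective hμi with he
  set θ' : Γ →* Perm (Fin m) := (alternatingGroup (Fin m)).subtype.comp
    (e.symm.toMonoidHom.comp ((φ.comp Γ.subtype).codRestrict μ.range (fun x => x.2.2))) with hθ'
  refine no_soluble_of_section hAI g H hH hsol m hm (L.subtype.comp Γ.subtype)
    (fun x y h => Subtype.ext (Subtype.ext h)) (fun x => congrArg Subtype.val (hΓc x)) θ' ?_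
  intro ρ hρ
  have hρa : ρ ∈ alternatingGroup (Fin m) := hρ.mem_alternatingGroup
  obtain ⟨x, hxg, hx⟩ := hlift (μ ⟨ρ, hρa⟩) ⟨⟨ρ, hρa⟩, rfl⟩
  refine ⟨⟨x, hΓm x hxg (by rw [hx]; exact ⟨_, rfl⟩)⟩, ?_⟩
  have h1 : ((φ.comp Γ.subtype).codRestrict μ.range (fun x => x.2.2))
      ⟨x, hΓm x hxg (by rw [hx]; exact ⟨_, rfl⟩)⟩ = e ⟨ρ, hρa⟩ := by
    apply Subtype.ext
    exact hx
  show ((e.symm (((φ.comp Γ.subtype).codRestrict μ.range (fun x => x.2.2))
      ⟨x, hΓm x hxg (by rw [hx]; exact ⟨_, rfl⟩)⟩) : alternatingGroup (Fin m)) :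
      Perm (Fin m)) = ρ
  rw [h1, MulEquiv.symm_apply_apply]

end Pool.Agent.H21.NX
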