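import Pool.Agent.H21.NX.PTY

/-!
# Module CAL of the board nx_modules (MP_9b2842_al)
-/

set_option autoImplicit false

open Equiv (Perm)

namespace Pool.Agent.H21.NX

open Pool.Agent.H11.NX

theorem pf_cal : Pool.Agent.H11.NS.T_AI → T_CAL := by
  intro hAI G _ hC g H hH hsol
  obtain ⟨m, hm⟩ : ∃ m : ℕ, m = 2 * H.normalCore.index + 5 := ⟨_, rfl⟩
  obtain ⟨ψ, hψ, hc⟩ := hC {g} m
  refine no_soluble_of_section hAI g H hH hsol m hm ψ hψ
    (fun x => (hc g (Finset.mem_singleton_self g) x).symm) (alternatingGroup (Fin m)).subtype ?_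
  intro ρ hρ
  exact ⟨⟨ρ, hρ.mem_alternatingGroup⟩, rfl⟩

end Pool.Agent.H21.NX
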